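import Pool.Agent.Q193.PR.Det
import Pool.Agent.Q286.PG.Stm

/-!
# A function which is positive somewhere is detected by one of the limit functions (general version)

Port of `Pool/Agent/Q193/PR/Det.lean` to an entire function `X` with exponential decay on the line.
-/

set_option autoImplicit false

namespace Pool.Agent.Q26.PG.Det

open MeasureTheory Set Filter Topology
open scoped ENNReal Polynomial
open Pool.Agent.Q240.PR
open Pool.Agent.Q193.PR
open Pool.Agent.Q193.PR.Det (Sm.int_mul Sm.cont exists_mul exists_bump)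
open Pool.Agent.Q286.PG

variable {X : ℂ → ℂ}

/-! ### the weight -/

/-- the weight -/
noncomputable def w (X : ℂ → ℂ) (v : ℝ) : ℝ := ‖X (v * Complex.I)‖ ^ 2

theorem w_cont (hX : Dec X) : Continuous (w X) := by
  unfold w
  have : Continuous X := hX.diff.continuous
  fun_prop

theorem w_nonneg (v : ℝ) : 0 ≤ w X v := sq_nonneg _

theorem w_dec (hX : Dec X) : ∃ C κ : ℝ, 0 < κ ∧
    ∀ v : ℝ, w X v * (1 + v ^ 2) ≤ C * Real.exp (-(κ * |v|)) := by
  obtain ⟨C, κ, hκ, hb⟩ := hX.dec
  refine ⟨C ^ 2 * (1 + 2 / κ ^ 2), κ, hκ, fun v => ?_⟩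
  have h1 : w X v ≤ C ^ 2 * Real.exp (-(2 * (κ * |v|))) := by
    unfold w
    calc ‖X (v * Complex.I)‖ ^ 2 ≤ (C * Real.exp (-(κ * |v|))) ^ 2 :=
          pow_le_pow_left₀ (norm_nonneg _) (hb v) 2
      _ = C ^ 2 * Real.exp (-(2 * (κ * |v|))) := by
          rw [mul_pow, ← Real.exp_nat_mul]
          congr 2
          push_cast
          ring
  have h2 : 1 + v ^ 2 ≤ (1 + 2 / κ ^ 2) * Real.exp (κ * |v|) := by
    have h3 := Real.quadratic_le_exp_of_nonneg (show 0 ≤ κ * |v| by positivity)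
    have h4 : (κ * |v|) ^ 2 = κ ^ 2 * v ^ 2 := by
      rw [mul_pow, sq_abs]
    rw [h4] at h3
    have h5 : 0 ≤ κ * |v| := by positivity
    have h6 : 0 ≤ κ ^ 2 * v ^ 2 := by positivity
    have h7 : v ^ 2 ≤ 2 / κ ^ 2 * Real.exp (κ * |v|) := by
      rw [div_mul_eq_mul_div, le_div_iff₀ (by positivity)]
      nlinarith
    have h8 : 1 ≤ Real.exp (κ * |v|) := by linarith
    linarith
  calc w X v * (1 + v ^ 2)
      ≤ C ^ 2 * Real.exp (-(2 * (κ * |v|))) * ((1 + 2 / κ ^ 2) * Real.exp (κ * |v|)) :=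
        mul_le_mul h1 h2 (by positivity) (by positivity)
    _ = C ^ 2 * (1 + 2 / κ ^ 2) * (Real.exp (-(2 * (κ * |v|))) * Real.exp (κ * |v|)) := by ring
    _ = _ := by
        rw [← Real.exp_add]
        congr 2
        ring

/-- integrability against polynomials -/
theorem int_w (hX : Dec X) (P : ℝ[X]) :
    Integrable fun v : ℝ => w X v * (1 + v ^ 2) * P.eval v ^ 2 := by
  obtain ⟨C, κ, hκ, hC⟩ := w_dec hX
  exact Poly.int_poly ((w_cont hX).mul (by fun_prop))
    (fun v => mul_nonneg (w_nonneg v) (by positivity)) hκ hC P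

/-- the zeros of `X` are isolated -/
theorem exists_pt (hX : Dec X) {T : ℝ → ℝ} (hT : Continuous T) (h0 : ∃ v, 0 < T v) :
    ∃ v, 0 < T v ∧ 0 < w X v := by
  obtain ⟨v0, hv0⟩ := h0
  have han : AnalyticOnNhd ℂ X univ := fun z _ => hX.diff.analyticAt z
  have h1 : ∀ᶠ z in 𝓝[≠] ((v0 : ℂ) * Complex.I), X z ≠ 0 := by
    rcases (hX.diff.analyticAt ((v0 : ℂ) * Complex.I)).eventually_eq_zero_or_eventually_ne_zero
      with h | h
    · exfalso
      obtain ⟨w0, hw0⟩ := hX.ne
      exact hw0 (han.eqOn_zero_of_preconnected_of_eventuallyEq_zero isPreconnected_univ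
        (mem_univ _) h (mem_univ w0))
    · exact h
  have h2 : Tendsto (fun v : ℝ => (v : ℂ) * Complex.I) (𝓝[≠] v0) (𝓝[≠] ((v0 : ℂ) * Complex.I)) := by
    refine tendsto_nhdsWithin_iff.2 ⟨?_, ?_⟩
    · have : Continuous fun v : ℝ => (v : ℂ) * Complex.I := by fun_prop
      exact (this.tendsto v0).mono_left nhdsWithin_le_nhds
    · filter_upwards [self_mem_nhdsWithin] with v hv
      intro hc
      apply hv
      have := mul_right_cancel₀ Complex.I_ne_zero hc
      exact_mod_cast this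
  have h3 : ∀ᶠ v in 𝓝[≠] v0, 0 < T v :=
    ((hT.tendsto v0).eventually (lt_mem_nhds hv0)).filter_mono nhdsWithin_le_nhds
  obtain ⟨v, hv1, hv2⟩ := ((h2.eventually h1).and h3).exists
  exact ⟨v, hv2, by
    unfold w
    have : 0 < ‖X ((v : ℂ) * Complex.I)‖ := norm_pos_iff.2 hv1
    positivity⟩

/-- **detection by polynomials** -/
theorem det_poly (hpoly : S_Poly) (hX : Dec X) {T : ℝ → ℝ} (hT : Continuous T) {B : ℝ}
    (hB : ∀ v, |T v| ≤ B * (1 + v ^ 2)) (h0 : ∃ v, 0 < T v) :
    ∃ P : ℝ[X], 0 < ∫ v : ℝ, w X v * P.eval v ^ 2 * T v := by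
  obtain ⟨v1, hv1, hw1⟩ := exists_pt hX hT h0
  have hB0 : 0 ≤ B := by
    have := (abs_nonneg _).trans (hB 0)
    simpa using this
  -- an interval
  obtain ⟨δ, hδ, hball⟩ := Metric.eventually_nhds_iff.1
    ((hT.tendsto v1).eventually (lt_mem_nhds hv1))
  set g : ℝ → ℝ := fun v => max 0 (δ / 2 - |v - v1|) with hg
  have hgc : Continuous g := by fun_prop
  have hgs : HasCompactSupport g := by
    refine HasCompactSupport.intro (isCompact_closedBall v1 δ) fun x hx => ?_
    rw [Metric.mem_closedBall, Real.dist_eq, not_le] at hx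
    show max 0 (δ / 2 - |x - v1|) = 0
    exact max_eq_left (by linarith)
  have hgT : ∀ v, 0 ≤ w X v * g v ^ 2 * T v := by
    intro v
    by_cases hv : |v - v1| < δ
    · exact mul_nonneg (mul_nonneg (w_nonneg v) (sq_nonneg _)) (hball (by rwa [Real.dist_eq])).le
    · have : g v = 0 := max_eq_left (by linarith)
      rw [this]
      simp
  have hcg : Continuous fun v => w X v * g v ^ 2 * T v := ((w_cont hX).mul (hgc.pow 2)).mul hT
  have hsg : HasCompactSupport fun v => w X v * g v ^ 2 * T v := by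
    refine HasCompactSupport.mul_right (HasCompactSupport.mul_left ?_)
    exact hgs.comp_left (g := fun y : ℝ => y ^ 2) (by norm_num)
  have hpos : 0 < ∫ v, w X v * g v ^ 2 * T v := by
    refine hcg.integral_pos_of_hasCompactSupport_nonneg_nonzero hsg hgT (x := v1) ?_
    have : g v1 = δ / 2 := by
      rw [hg]
      simp only [sub_self, abs_zero, sub_zero]
      exact max_eq_right (by linarith)
    rw [this]
    positivity
  obtain ⟨d, hd⟩ : ∃ d : ℝ, d = ∫ v, w X v * g v ^ 2 * T v := ⟨_, rfl⟩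
  rw [← hd] at hpos
  obtain ⟨ω, hω⟩ : ∃ ω : ℝ → ℝ, ∀ v, ω v = w X v * (1 + v ^ 2) := ⟨_, fun _ => rfl⟩
  have hωc : Continuous ω := by
    rw [show ω = fun v => w X v * (1 + v ^ 2) from funext hω]
    exact (w_cont hX).mul (by fun_prop)
  have hω0 : ∀ v, 0 ≤ ω v := fun v => by
    rw [hω]
    exact mul_nonneg (w_nonneg v) (by positivity)
  have iG : Integrable fun v => ω v * g v ^ 2 := by
    refine (hωc.mul (hgc.pow 2)).integrable_of_hasCompactSupport (HasCompactSupport.mul_left ?_)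
    exact hgs.comp_left (g := fun y : ℝ => y ^ 2) (by norm_num)
  obtain ⟨G, hG⟩ : ∃ G : ℝ, G = ∫ v, ω v * g v ^ 2 := ⟨_, rfl⟩
  have hG0 : 0 ≤ G := by
    rw [hG]
    exact integral_nonneg fun v => mul_nonneg (hω0 v) (sq_nonneg _)
  obtain ⟨C, κ, hκ, hC⟩ := w_dec hX
  have hC : ∀ v, ω v ≤ C * Real.exp (-(κ * |v|)) := fun v => by
    rw [hω]
    exact hC v
  -- the parameters
  obtain ⟨η, hη⟩ : ∃ η : ℝ, η = d / (4 * (B + 1) * (G + 1)) := ⟨_, rfl⟩
  have hη0 : 0 < η := by
    rw [hη]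
    positivity
  obtain ⟨ε, hε⟩ : ∃ ε : ℝ, ε = d / (4 * (B + 1) * (1 + 1 / η)) := ⟨_, rfl⟩
  have hε0 : 0 < ε := by
    rw [hε]
    positivity
  obtain ⟨P, hP⟩ := hpoly ω C κ hωc hω0 hκ hC g hgc hgs ε hε0
  refine ⟨P, ?_⟩
  have hPc : Continuous fun v : ℝ => P.eval v := P.continuous
  have iP : Integrable fun v : ℝ => ω v * P.eval v ^ 2 := by
    simp only [hω]
    exact int_w hX P
  have iPT : Integrable fun v : ℝ => w X v * P.eval v ^ 2 * T v := by
    refine (iP.const_mul B).mono (((w_cont hX).mul (hPc.pow 2)).mul hT).aestronglyMeasurable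
      (Eventually.of_forall fun v => ?_)
    rw [Real.norm_eq_abs, Real.norm_eq_abs, abs_mul,
      abs_of_nonneg (mul_nonneg (w_nonneg v) (sq_nonneg _)),
      abs_of_nonneg (mul_nonneg hB0 (mul_nonneg (hω0 v) (sq_nonneg _)))]
    calc w X v * P.eval v ^ 2 * |T v| ≤ w X v * P.eval v ^ 2 * (B * (1 + v ^ 2)) :=
          mul_le_mul_of_nonneg_left (hB v) (mul_nonneg (w_nonneg v) (sq_nonneg _))
      _ = B * (ω v * P.eval v ^ 2) := by
          rw [hω]
          ring
  have iPg : Integrable fun v : ℝ => ω v * (P.eval v - g v) ^ 2 := by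
    refine ((iP.add iG).const_mul 2).mono (hωc.mul ((hPc.sub hgc).pow 2)).aestronglyMeasurable
      (Eventually.of_forall fun v => ?_)
    have h1 := hω0 v
    rw [Real.norm_of_nonneg (mul_nonneg h1 (sq_nonneg _)), Real.norm_of_nonneg (by
      show 0 ≤ 2 * (ω v * P.eval v ^ 2 + ω v * g v ^ 2)
      positivity)]
    show ω v * (P.eval v - g v) ^ 2 ≤ 2 * (ω v * P.eval v ^ 2 + ω v * g v ^ 2)
    nlinarith [mul_nonneg h1 (sq_nonneg (P.eval v + g v))]
  have hkey : ∫ v, (w X v * g v ^ 2 * T v - B * ((1 + 1 / η) * (ω v * (P.eval v - g v) ^ 2) +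
      η * (ω v * g v ^ 2))) ≤ ∫ v, w X v * P.eval v ^ 2 * T v := by
    refine integral_mono ((hcg.integrable_of_hasCompactSupport hsg).sub
      (((iPg.const_mul _).add (iG.const_mul _)).const_mul _)) iPT fun v => ?_
    show w X v * g v ^ 2 * T v - B * ((1 + 1 / η) * (ω v * (P.eval v - g v) ^ 2) +
      η * (ω v * g v ^ 2)) ≤ w X v * P.eval v ^ 2 * T v
    set p := P.eval v
    set q := g v
    have a1 : |p ^ 2 - q ^ 2| ≤ (1 + 1 / η) * (p - q) ^ 2 + η * q ^ 2 := by
      have a2 : p ^ 2 - q ^ 2 = (p - q) ^ 2 + 2 * (q * (p - q)) := by ring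
      have a3 : |2 * (q * (p - q))| ≤ 1 / η * (p - q) ^ 2 + η * q ^ 2 := by
        rw [abs_le]
        have a4 : 0 ≤ (η * q + (p - q)) ^ 2 / η := by positivity
        have a5 : 0 ≤ (η * q - (p - q)) ^ 2 / η := by positivity
        have a6 : (η * q + (p - q)) ^ 2 / η = η * q ^ 2 + 2 * (q * (p - q)) + 1 / η * (p - q) ^ 2 := by
          field_simp
          ring
        have a7 : (η * q - (p - q)) ^ 2 / η = η * q ^ 2 - 2 * (q * (p - q)) + 1 / η * (p - q) ^ 2 := by
          field_simp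
          ring
        rw [a6] at a4
        rw [a7] at a5
        constructor <;> linarith
      rw [a2]
      refine (abs_add_le _ _).trans ?_
      rw [abs_of_nonneg (sq_nonneg (p - q))]
      linarith
    have a8 : w X v * (q ^ 2 - p ^ 2) * T v ≤
        B * ((1 + 1 / η) * (ω v * (p - q) ^ 2) + η * (ω v * q ^ 2)) := by
      calc w X v * (q ^ 2 - p ^ 2) * T v ≤ |w X v * (q ^ 2 - p ^ 2) * T v| := le_abs_self _
        _ = w X v * |p ^ 2 - q ^ 2| * |T v| := by
            rw [abs_mul, abs_mul, abs_of_nonneg (w_nonneg v), abs_sub_comm]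
        _ ≤ w X v * ((1 + 1 / η) * (p - q) ^ 2 + η * q ^ 2) * (B * (1 + v ^ 2)) := by
            refine mul_le_mul (mul_le_mul_of_nonneg_left a1 (w_nonneg v)) (hB v) (abs_nonneg _) ?_
            have := w_nonneg (X := X) v
            positivity
        _ = _ := by
            rw [hω]
            ring
    linarith
  have j1 : Integrable fun v : ℝ => (1 + 1 / η) * (ω v * (P.eval v - g v) ^ 2) := iPg.const_mul _
  have j2 : Integrable fun v : ℝ => η * (ω v * g v ^ 2) := iG.const_mul _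
  have j3 : Integrable fun v : ℝ => B * ((1 + 1 / η) * (ω v * (P.eval v - g v) ^ 2) +
      η * (ω v * g v ^ 2)) := (j1.add j2).const_mul B
  have hkey2 : ∫ v, (w X v * g v ^ 2 * T v - B * ((1 + 1 / η) * (ω v * (P.eval v - g v) ^ 2) +
      η * (ω v * g v ^ 2))) =
      d - B * ((1 + 1 / η) * (∫ v, ω v * (P.eval v - g v) ^ 2) + η * G) := by
    rw [integral_sub (hcg.integrable_of_hasCompactSupport hsg) j3, integral_const_mul,
      integral_add j1 j2, integral_const_mul, integral_const_mul, ← hd, ← hG]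
  rw [hkey2] at hkey
  have b1 : B * ((1 + 1 / η) * ∫ v, ω v * (P.eval v - g v) ^ 2) ≤ d / 4 := by
    calc B * ((1 + 1 / η) * ∫ v, ω v * (P.eval v - g v) ^ 2)
        ≤ (B + 1) * ((1 + 1 / η) * ε) := by
          refine mul_le_mul (by linarith) (mul_le_mul_of_nonneg_left hP (by positivity)) ?_
            (by positivity)
          refine mul_nonneg (by positivity) (integral_nonneg fun v => ?_)
          exact mul_nonneg (hω0 v) (sq_nonneg _)
      _ = d / 4 := by
          rw [hε]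
          field_simp
  have b2 : B * (η * G) ≤ d / 4 := by
    calc B * (η * G) ≤ (B + 1) * (η * (G + 1)) := by
          refine mul_le_mul (by linarith) (mul_le_mul_of_nonneg_left (by linarith) hη0.le)
            (by positivity) (by positivity)
      _ = d / 4 := by
          rw [hη]
          field_simp
  linarith

/-- **Det** -/
theorem detG (hpoly : S_Poly) : S_DetG := by
  intro X hX h T hh hT ⟨B, hB'⟩ h0
  have hB00 : 0 ≤ B := (abs_nonneg _).trans (hB' 0)
  have hB : ∀ v, |T v| ≤ B * (1 + v ^ 2) := fun v => (hB' v).trans (by nlinarith [sq_nonneg v])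
  obtain ⟨P, hP⟩ := det_poly hpoly hX hT hB h0
  have hB0 : 0 ≤ B := by
    have := (abs_nonneg _).trans (hB 0)
    simpa using this
  have hσ : ∀ n : ℕ, 0 < h / (n + 1) := fun n => by positivity
  have hσh : ∀ n : ℕ, h / (n + 1) ≤ h := fun n => div_le_self hh.le (by
    have : (0:ℝ) ≤ n := Nat.cast_nonneg n
    linarith)
  choose ψ hψ hψb using fun n : ℕ => exists_bump (hσ n) (hσh n)
  choose χ hχ hχe using fun n : ℕ => exists_mul (hψ n) P
  have hPc : Continuous fun v : ℝ => P.eval v := P.continuous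
  have iP : Integrable fun v : ℝ => w X v * (1 + v ^ 2) * P.eval v ^ 2 := int_w hX P
  have heq : ∀ n : ℕ, ∀ v : ℝ, ‖X (v * Complex.I) * Y23.TT (χ n) (v * Complex.I)‖ ^ 2 * T v =
      w X v * P.eval v ^ 2 * ‖Y23.TT (ψ n) (v * Complex.I)‖ ^ 2 * T v := by
    intro n v
    rw [hχe, norm_mul, norm_mul, Complex.norm_real, Real.norm_eq_abs, mul_pow, mul_pow, sq_abs]
    unfold w
    ring
  have hTTc : ∀ n : ℕ, Continuous fun v : ℝ => Y23.TT (ψ n) (v * Complex.I) := by
    intro n
    have hd : Integrable (ψ n) := by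
      have := Sm.int_mul (hψ n) (g := fun _ => (1:ℂ)) continuous_const
      simpa using this
    unfold Y23.TT
    refine continuous_of_dominated (bound := fun x => ‖ψ n x‖) (fun v => ?_) (fun v => ?_) hd.norm
      (Eventually.of_forall fun x => by fun_prop)
    · exact ((Sm.cont (hψ n)).mul (by fun_prop)).aestronglyMeasurable
    · refine Eventually.of_forall fun x => ?_
      have e : (v : ℂ) * Complex.I * x = ((v * x : ℝ) : ℂ) * Complex.I := by push_cast; ring
      rw [norm_mul, e, Complex.norm_exp_ofReal_mul_I, mul_one]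
  have hlim : Tendsto (fun n : ℕ => ∫ v : ℝ, ‖X (v * Complex.I) * Y23.TT (χ n) (v * Complex.I)‖ ^ 2 * T v)
      atTop (𝓝 (∫ v : ℝ, w X v * P.eval v ^ 2 * T v)) := by
    simp only [heq]
    refine tendsto_integral_of_dominated_convergence
      (fun v => B * (w X v * (1 + v ^ 2) * P.eval v ^ 2)) (fun n => ?_) (iP.const_mul B) (fun n => ?_) ?_
    · exact ((((w_cont hX).mul (hPc.pow 2)).mul ((hTTc n).norm.pow 2)).mul hT).aestronglyMeasurable
    · refine Eventually.of_forall fun v => ?_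
      have h1 : ‖Y23.TT (ψ n) (v * Complex.I)‖ ^ 2 ≤ 1 := pow_le_one₀ (norm_nonneg _) (hψb n v).1
      have h2 : 0 ≤ w X v * P.eval v ^ 2 := mul_nonneg (w_nonneg v) (sq_nonneg _)
      rw [Real.norm_eq_abs, abs_mul, abs_of_nonneg (mul_nonneg h2 (sq_nonneg _))]
      calc w X v * P.eval v ^ 2 * ‖Y23.TT (ψ n) (v * Complex.I)‖ ^ 2 * |T v|
          ≤ w X v * P.eval v ^ 2 * 1 * (B * (1 + v ^ 2)) :=
            mul_le_mul (mul_le_mul_of_nonneg_left h1 h2) (hB v) (abs_nonneg _) (by positivity)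
        _ = _ := by ring
    · refine Eventually.of_forall fun v => ?_
      have h1 : Tendsto (fun n : ℕ => Y23.TT (ψ n) (v * Complex.I)) atTop (𝓝 1) := by
        rw [tendsto_iff_norm_sub_tendsto_zero]
        refine squeeze_zero (fun n => norm_nonneg _) (fun n => (hψb n v).2) ?_
        have h2 : Tendsto (fun n : ℕ => h / ((n : ℝ) + 1)) atTop (𝓝 0) :=
          tendsto_const_nhds.div_atTop (tendsto_atTop_add_const_right _ _ tendsto_natCast_atTop_atTop)
        simpa using h2.const_mul |v|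
      have h2 : Tendsto (fun n : ℕ => ‖Y23.TT (ψ n) (v * Complex.I)‖ ^ 2) atTop (𝓝 1) := by
        simpa using (h1.norm).pow 2
      have h3 := (h2.const_mul (w X v * P.eval v ^ 2)).mul_const (T v)
      rw [mul_one] at h3
      exact h3
  obtain ⟨n, hn⟩ := (hlim.eventually (lt_mem_nhds hP)).exists
  exact ⟨χ n, hχ n, hn⟩

end Pool.Agent.Q26.PG.Det
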