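import Pool.Agent.Q286.PG.Stm

/-!
# Uniform detection on a compact family (general version)

Port of `Pool/Agent/Q211/PR/Key.lean` and `Pool/Agent/Q182/PR/KeyP.lean` to general L-functions and
bounded multipliers.
-/

set_option autoImplicit false

open Filter Topology Finset MeasureTheory
open Pool.Agent.Q240.PR
open Pool.Agent.Q286.PG

namespace Pool.Agent.Q26.PG.Key

theorem qq_smul [D : Y23.G.ZD] (f : ℝ → ℂ) (c : ℂ) :
    Y23.G.QQ (fun x => c * f x) = ‖c‖ ^ 2 * Y23.G.QQ f := by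
  unfold Y23.G.QQ
  rw [← tsum_mul_left]
  refine tsum_congr fun ρ => ?_
  have h : Y23.G.GG (fun x => c * f x) (fun x => c * f x) ((ρ : ℂ) - 1 / 2) =
      ((‖c‖ ^ 2 : ℝ) : ℂ) * Y23.G.GG f f ((ρ : ℂ) - 1 / 2) := by
    unfold Y23.G.GG
    rw [Y23.TT_smul, Y23.TT_smul, map_mul]
    have : ((‖c‖ ^ 2 : ℝ) : ℂ) = c * (starRingEnd ℂ) c := by
      rw [Complex.mul_conj, Complex.normSq_eq_norm_sq]
    rw [this]
    ring
  rw [h, Complex.re_ofReal_mul]
  ring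

theorem fa_sm {h : ℝ} {χ : ℝ → ℂ} (hχ : Sm h χ) : Y23.Fa h χ := by
  have hc : Continuous χ := (hχ.1 0).continuous
  refine ⟨?_, fun x hx => hχ.2 x hx.le⟩
  have hcs : HasCompactSupport χ :=
    HasCompactSupport.intro (isCompact_Icc (a := -h) (b := h)) (fun x hx => hχ.2 x (by
    by_contra h'
    push Not at h'
    exact hx (abs_le.1 h'.le)))
  exact hc.memLp_of_hasCompactSupport hcs

/-- the limit of the squares -/
noncomputable def wX (X : ℂ → ℂ) (χ : ℝ → ℂ) (v : ℝ) : ℝ :=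
  ‖X (v * Complex.I) * Y23.TT χ (v * Complex.I)‖ ^ 2

theorem wX_nonneg (X : ℂ → ℂ) (χ : ℝ → ℂ) (v : ℝ) : 0 ≤ wX X χ v := by
  unfold wX
  positivity

theorem TT_bd (χ : ℝ → ℂ) (v : ℝ) : ‖Y23.TT χ (v * Complex.I)‖ ≤ ∫ x : ℝ, ‖χ x‖ := by
  unfold Y23.TT
  refine (norm_integral_le_integral_norm _).trans (le_of_eq ?_)
  refine integral_congr_ae (Eventually.of_forall fun x => ?_)
  simp only
  rw [norm_mul, Complex.norm_exp]
  simp

theorem line_cont : Continuous (fun v : ℝ => (v : ℂ) * Complex.I) := by fun_prop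

theorem TT_cont {a : ℝ} {f : ℝ → ℂ} (hf : Y23.Fa a f) :
    Continuous (fun v : ℝ => Y23.TT f (v * Complex.I)) :=
  (Y23.differentiable_TT hf).continuous.comp line_cont

theorem X_cont {X : ℂ → ℂ} (hX : Dec X) : Continuous (fun v : ℝ => X (v * Complex.I)) :=
  hX.diff.continuous.comp line_cont

theorem exp_bd {κ : ℝ} (hκ : 0 < κ) (v : ℝ) :
    Real.exp (-(2 * (κ * |v|))) ≤ (1 + 1 / (2 * κ ^ 2)) * (1 + v ^ 2)⁻¹ := by
  have h2 := Real.quadratic_le_exp_of_nonneg (x := 2 * (κ * |v|)) (by positivity)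
  have h3 : |v| ^ 2 = v ^ 2 := sq_abs v
  have h4 : 0 ≤ κ * |v| := by positivity
  have h5 : (2 * (κ * |v|)) ^ 2 = 4 * κ ^ 2 * v ^ 2 := by
    rw [mul_pow, mul_pow, h3]
    ring
  rw [h5] at h2
  have h6 : 1 + v ^ 2 ≤ (1 + 1 / (2 * κ ^ 2)) * Real.exp (2 * (κ * |v|)) := by
    have h7 : v ^ 2 ≤ 1 / (2 * κ ^ 2) * Real.exp (2 * (κ * |v|)) := by
      rw [div_mul_eq_mul_div, le_div_iff₀ (by positivity)]
      linarith
    have h8 : 0 ≤ 4 * κ ^ 2 * v ^ 2 := by positivity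
    linarith
  rw [Real.exp_neg]
  have h8 : 0 < 1 + v ^ 2 := by positivity
  have h9 := Real.exp_pos (2 * (κ * |v|))
  rw [← div_eq_mul_inv, inv_eq_one_div, div_le_div_iff₀ h9 h8]
  linarith

theorem X_sq_bd {X : ℂ → ℂ} (hX : Dec X) : ∃ C : ℝ, 0 ≤ C ∧
    ∀ v : ℝ, ‖X (v * Complex.I)‖ ^ 2 ≤ C * (1 + v ^ 2)⁻¹ := by
  obtain ⟨C, κ, hκ, H⟩ := hX.dec
  refine ⟨C ^ 2 * (1 + 1 / (2 * κ ^ 2)), by positivity, fun v => ?_⟩
  calc ‖X (v * Complex.I)‖ ^ 2 ≤ (C * Real.exp (-(κ * |v|))) ^ 2 :=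
        pow_le_pow_left₀ (norm_nonneg _) (H v) 2
    _ = C ^ 2 * Real.exp (-(2 * (κ * |v|))) := by
        rw [mul_pow, ← Real.exp_nat_mul]
        congr 2
        push_cast
        ring
    _ ≤ C ^ 2 * ((1 + 1 / (2 * κ ^ 2)) * (1 + v ^ 2)⁻¹) :=
        mul_le_mul_of_nonneg_left (exp_bd hκ v) (by positivity)
    _ = _ := by ring

theorem wX_cont {X : ℂ → ℂ} (hX : Dec X) {h : ℝ} {χ : ℝ → ℂ} (hχ : Sm h χ) :
    Continuous (wX X χ) := by
  unfold wX
  exact (((X_cont hX).mul (TT_cont (fa_sm hχ))).norm).pow 2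

theorem wX_int {X : ℂ → ℂ} (hX : Dec X) {h : ℝ} {χ : ℝ → ℂ} (hχ : Sm h χ) :
    Integrable (wX X χ) := by
  obtain ⟨C, hC, H⟩ := X_sq_bd hX
  set M : ℝ := ∫ x : ℝ, ‖χ x‖ with hM
  have hM0 : 0 ≤ M := integral_nonneg fun x => norm_nonneg _
  refine (integrable_inv_one_add_sq.const_mul (C * M ^ 2)).mono'
    (wX_cont hX hχ).aestronglyMeasurable (Eventually.of_forall fun v => ?_)
  rw [Real.norm_of_nonneg (wX_nonneg X χ v)]
  have h1 : ‖Y23.TT χ (v * Complex.I)‖ ^ 2 ≤ M ^ 2 := pow_le_pow_left₀ (norm_nonneg _) (TT_bd χ v) 2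
  unfold wX
  rw [norm_mul, mul_pow]
  calc ‖X (v * Complex.I)‖ ^ 2 * ‖Y23.TT χ (v * Complex.I)‖ ^ 2
      ≤ (C * (1 + v ^ 2)⁻¹) * M ^ 2 := mul_le_mul (H v) h1 (by positivity) (by positivity)
    _ = C * M ^ 2 * (1 + v ^ 2)⁻¹ := by ring

/-- a weight times a bounded function is integrable -/
theorem wT_int {w T : ℝ → ℝ} {B : ℝ} (hw0 : ∀ v, 0 ≤ w v) (hwc : Continuous w) (hTc : Continuous T)
    (hwi : Integrable w) (hB : ∀ v, |T v| ≤ B) : Integrable (fun v => w v * T v) := by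
  refine (hwi.const_mul B).mono' (hwc.mul hTc).aestronglyMeasurable (Eventually.of_forall fun v => ?_)
  rw [norm_mul, Real.norm_of_nonneg (hw0 v), Real.norm_eq_abs]
  calc w v * |T v| ≤ w v * B := mul_le_mul_of_nonneg_left (hB v) (hw0 v)
    _ = _ := by ring

/-- continuity of the integral in the parameter, for an arbitrary space -/
theorem G_cont {Q : Type} [TopologicalSpace Q] {T : Q → ℝ → ℝ}
    (hT : Continuous (fun x : Q × ℝ => T x.1 x.2)) {B : ℝ} (hB : ∀ q v, |T q v| ≤ B) {w : ℝ → ℝ}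
    (hw0 : ∀ v, 0 ≤ w v) (hwc : Continuous w) (hwi : Integrable w) :
    Continuous (fun q => ∫ v, w v * T q v) := by
  set S : Set C(ℝ, ℝ) := {τ | ∀ v, |τ v| ≤ B} with hS
  have h1 : Continuous (fun τ : S => ∫ v, w v * τ.1 v) := by
    refine continuous_of_dominated (bound := fun v => B * w v) (fun τ => ?_) (fun τ => ?_)
      (hwi.const_mul B) ?_
    · exact (hwc.mul τ.1.continuous).aestronglyMeasurable
    · refine Eventually.of_forall fun v => ?_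
      rw [norm_mul, Real.norm_of_nonneg (hw0 v), Real.norm_eq_abs]
      calc w v * |τ.1 v| ≤ w v * B := mul_le_mul_of_nonneg_left (τ.2 v) (hw0 v)
        _ = _ := by ring
    · refine Eventually.of_forall fun v => ?_
      exact continuous_const.mul ((continuous_eval_const v).comp continuous_subtype_val)
  have h2 : Continuous (fun q : Q => (⟨ContinuousMap.curry ⟨fun x : Q × ℝ => T x.1 x.2, hT⟩ q,
      fun v => hB q v⟩ : S)) := Continuous.subtype_mk (ContinuousMap.continuous _) _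
  exact h1.comp h2

/-- the trial functions are close to their limits -/
theorem close {w T : ℝ → ℝ} {B s : ℝ} {f g : ℝ → ℂ} (hs : 0 < s) (hTc : Continuous T)
    (hB : ∀ v, |T v| ≤ B) (hf : Continuous f) (hg : Continuous g) (hw : ∀ v, w v = ‖g v‖ ^ 2)
    (hwi : Integrable w) (hd : Integrable (fun v => ‖f v - g v‖ ^ 2)) :
    |(∫ v, ‖f v‖ ^ 2 * T v) - ∫ v, w v * T v| ≤
      B * ((1 + 1 / s) * (∫ v, ‖f v - g v‖ ^ 2) + s * ∫ v, w v) := by
  have hp : ∀ v, |‖f v‖ ^ 2 - w v| ≤ (1 + 1 / s) * ‖f v - g v‖ ^ 2 + s * w v := by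
    intro v
    rw [hw]
    set x := ‖f v‖ with hx
    set y := ‖g v‖ with hy
    set d := ‖f v - g v‖ with hdd
    have h1 : |x - y| ≤ d := abs_norm_sub_norm_le _ _
    have h2 : 0 ≤ d := norm_nonneg _
    have h3 : 0 ≤ x := norm_nonneg _
    have h4 : 0 ≤ y := norm_nonneg _
    have h5 : x + y ≤ d + 2 * y := by linarith [(abs_le.1 h1).2]
    have h6 : |x ^ 2 - y ^ 2| = |x - y| * (x + y) := by
      rw [sq_sub_sq, abs_mul, abs_of_nonneg (by linarith : 0 ≤ x + y)]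
      ring
    rw [h6]
    have h7 : |x - y| * (x + y) ≤ d * (d + 2 * y) := mul_le_mul h1 h5 (by linarith) h2
    have h8 : 2 * (d * y) ≤ 1 / s * d ^ 2 + s * y ^ 2 := by
      have h9 : 0 ≤ (d - s * y) ^ 2 / s := by positivity
      have h10 : (d - s * y) ^ 2 / s = 1 / s * d ^ 2 + s * y ^ 2 - 2 * (d * y) := by
        field_simp
        ring
      linarith
    nlinarith
  have hwc : Continuous w := by
    have : w = fun v => ‖g v‖ ^ 2 := funext hw
    rw [this]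
    exact hg.norm.pow 2
  have hw0 : ∀ v, 0 ≤ w v := fun v => by rw [hw]; positivity
  have hsum : Integrable (fun v => B * ((1 + 1 / s) * ‖f v - g v‖ ^ 2 + s * w v)) :=
    ((hd.const_mul (1 + 1 / s)).add (hwi.const_mul s)).const_mul B
  have hbd : ∀ v, ‖(‖f v‖ ^ 2 - w v) * T v‖ ≤ B * ((1 + 1 / s) * ‖f v - g v‖ ^ 2 + s * w v) := by
    intro v
    rw [norm_mul, Real.norm_eq_abs, Real.norm_eq_abs]
    have h0 := hw0 v
    calc |‖f v‖ ^ 2 - w v| * |T v| ≤ ((1 + 1 / s) * ‖f v - g v‖ ^ 2 + s * w v) * B :=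
          mul_le_mul (hp v) (hB v) (abs_nonneg _) (by positivity)
      _ = _ := by ring
  have hdi : Integrable (fun v => (‖f v‖ ^ 2 - w v) * T v) :=
    hsum.mono' (((hf.norm.pow 2).sub hwc).mul hTc).aestronglyMeasurable (Eventually.of_forall hbd)
  have hwT : Integrable (fun v => w v * T v) := wT_int hw0 hwc hTc hwi hB
  have hfT : Integrable (fun v => ‖f v‖ ^ 2 * T v) := by
    refine (hdi.add hwT).congr (Eventually.of_forall fun v => ?_)
    simp only [Pi.add_apply]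
    ring
  rw [← integral_sub hfT hwT, ← Real.norm_eq_abs]
  have h1 : ‖∫ v, (‖f v‖ ^ 2 * T v - w v * T v)‖ ≤
      ∫ v, B * ((1 + 1 / s) * ‖f v - g v‖ ^ 2 + s * w v) := by
    refine norm_integral_le_of_norm_le hsum (Eventually.of_forall fun v => ?_)
    rw [← sub_mul]
    exact hbd v
  refine h1.trans (le_of_eq ?_)
  rw [integral_const_mul, integral_add (hd.const_mul _) (hwi.const_mul _), integral_const_mul,
    integral_const_mul]

theorem int_smul (f : ℝ → ℂ) (s : ℝ) (T : ℝ → ℝ) :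
    ∫ v : ℝ, ‖Y23.TT (fun x => (s : ℂ) * f x) (v * Complex.I)‖ ^ 2 * T v =
      s ^ 2 * ∫ v : ℝ, ‖Y23.TT f (v * Complex.I)‖ ^ 2 * T v := by
  rw [← integral_const_mul]
  refine integral_congr_ae (Eventually.of_forall fun v => ?_)
  simp only
  rw [Y23.TT_smul, norm_mul, mul_pow, Complex.norm_real, Real.norm_eq_abs, sq_abs]
  ring

/-- the norm of the trial functions -/
theorem n2_le {a W : ℝ} {f : ℝ → ℂ} {w : ℝ → ℝ} {g : ℝ → ℂ} (hf : Y23.Fa a f)
    (hw : ∀ v, w v = ‖g v‖ ^ 2) (hwi : Integrable w) (hW : ∫ v : ℝ, w v ≤ W)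
    (hd : Integrable (fun v : ℝ => ‖Y23.TT f (v * Complex.I) - g v‖ ^ 2))
    (hd1 : ∫ v : ℝ, ‖Y23.TT f (v * Complex.I) - g v‖ ^ 2 ≤ 1) :
    Y23.N2 f ≤ 1 + W := by
  have h1 := Y23.plancherel hf
  have h2 : ∫ v : ℝ, ‖Y23.TT f (v * Complex.I)‖ ^ 2 ≤
      ∫ v : ℝ, (2 * ‖Y23.TT f (v * Complex.I) - g v‖ ^ 2 + 2 * w v) := by
    refine integral_mono (Y23.int_TT_sq hf) ((hd.const_mul 2).add (hwi.const_mul 2)) fun v => ?_
    simp only
    rw [hw]
    have h3 : ‖Y23.TT f (v * Complex.I)‖ ≤ ‖Y23.TT f (v * Complex.I) - g v‖ + ‖g v‖ := by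
      have := norm_add_le (Y23.TT f (v * Complex.I) - g v) (g v)
      rwa [sub_add_cancel] at this
    have h4 : 0 ≤ ‖Y23.TT f (v * Complex.I)‖ := norm_nonneg _
    have h5 : ‖Y23.TT f (v * Complex.I)‖ ^ 2 ≤
        (‖Y23.TT f (v * Complex.I) - g v‖ + ‖g v‖) ^ 2 := pow_le_pow_left₀ h4 h3 2
    nlinarith [sq_nonneg (‖Y23.TT f (v * Complex.I) - g v‖ - ‖g v‖)]
  rw [integral_add (hd.const_mul 2) (hwi.const_mul 2), integral_const_mul, integral_const_mul,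
    h1] at h2
  have h3 := Y23.N2_nonneg f
  have h4 := Real.pi_gt_three
  nlinarith

/-- **KeyG** -/
theorem keyG (hTr : S_TrXG) (hDet : S_DetG) (hDec : S_DecG) : S_KeyG := by
  intro L c hc
  obtain ⟨X, hXe⟩ : ∃ X : ℂ → ℂ, X = fun w => L.X (1 / 2 + w) := ⟨_, rfl⟩
  have hX : Dec X := by
    rw [hXe]
    exact hDec
  obtain ⟨h, C, hh, hC, hF⟩ := hTr c hc
  refine ⟨C, hC, fun Q _ _ T hT hB hpos => ?_⟩
  obtain ⟨B', hB'⟩ := hB
  obtain ⟨B, hB0, hB⟩ : ∃ B : ℝ, 0 < B ∧ ∀ q v, |T q v| ≤ B :=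
    ⟨max B' 1, by positivity, fun q v => (hB' q v).trans (le_max_left _ _)⟩
  have hTq : ∀ q, Continuous (T q) := fun q => hT.comp (by fun_prop : Continuous fun v : ℝ => (q, v))
  have h1 : ∀ q : Q, ∃ χ : ℝ → ℂ, Sm h χ ∧ 0 < ∫ v : ℝ, wX X χ v * T q v := fun q =>
    hDet X hX h (T q) hh (hTq q) ⟨B, hB q⟩ (hpos q)
  choose χ hχ hχp using h1
  have hG : ∀ q0 : Q, Continuous (fun q => ∫ v : ℝ, wX X (χ q0) v * T q v) := fun q0 =>
    G_cont hT hB (wX_nonneg _ _) (wX_cont hX (hχ q0)) (wX_int hX (hχ q0))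
  set d : Q → ℝ := fun q0 => ∫ v : ℝ, wX X (χ q0) v * T q0 v with hd
  obtain ⟨t, ht⟩ := CompactSpace.elim_nhds_subcover
    (fun q0 : Q => {q : Q | d q0 / 2 < ∫ v : ℝ, wX X (χ q0) v * T q v})
    (fun q0 => ((hG q0).isOpen_preimage _ isOpen_Ioi).mem_nhds (by
      have := hχp q0
      show d q0 / 2 < ∫ v : ℝ, wX X (χ q0) v * T q0 v
      simp only [hd]
      linarith))
  -- the trial functions
  have h2 : ∀ q0 : Q, ∃ s : ℝ, 0 < s ∧ ∀ᶠ p in Lm L.m C, ∀ q : Q,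
      d q0 / 2 < (∫ v : ℝ, wX X (χ q0) v * T q v) →
      ∃ f : ℝ → ℂ, Y23.G.F.Hn p.1 (p.2 : ℕ∞) f ∧ Y23.N2 f ≤ 1 ∧
        |Y23.G.QQ (D := Y23.G.zd) f| ≤ Real.exp (-(c * Real.exp (2 * p.1 / L.m))) ∧
        s ≤ ∫ v : ℝ, ‖Y23.TT f (v * Complex.I)‖ ^ 2 * T q v := by
    intro q0
    obtain ⟨F, hF1, hF2⟩ := hF (χ q0) (hχ q0)
    have hd0 : 0 < d q0 := hχp q0
    set W : ℝ := ∫ v : ℝ, wX X (χ q0) v with hW
    have hW0 : 0 ≤ W := integral_nonneg fun v => wX_nonneg _ _ _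
    obtain ⟨s, hs, hsW⟩ : ∃ s : ℝ, 0 < s ∧ B * (s * W) ≤ d q0 / 8 := by
      refine ⟨d q0 / (8 * B * (W + 1)), by positivity, ?_⟩
      have e1 : B * (d q0 / (8 * B * (W + 1)) * W) = d q0 / 8 * (W / (W + 1)) := by
        field_simp
      rw [e1]
      refine mul_le_of_le_one_right (by positivity) ?_
      rw [div_le_one (by positivity)]
      linarith
    have hF2' : Tendsto (fun p => ∫ v : ℝ, ‖Y23.TT (F p) (v * Complex.I) -
        X (v * Complex.I) * Y23.TT (χ q0) (v * Complex.I)‖ ^ 2) (Lm L.m C) (𝓝 0) := by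
      rw [hXe]
      exact hF2
    have h3 : ∀ᶠ p in Lm L.m C, (∫ v : ℝ, ‖Y23.TT (F p) (v * Complex.I) -
        X (v * Complex.I) * Y23.TT (χ q0) (v * Complex.I)‖ ^ 2) < d q0 / (8 * B * (1 + 1 / s)) :=
      hF2'.eventually_lt_const (by positivity)
    have h3' : ∀ᶠ p in Lm L.m C, (∫ v : ℝ, ‖Y23.TT (F p) (v * Complex.I) -
        X (v * Complex.I) * Y23.TT (χ q0) (v * Complex.I)‖ ^ 2) < 1 :=
      hF2'.eventually_lt_const (by positivity)
    refine ⟨(1 / (1 + W)) ^ 2 * (d q0 / 4), by positivity, ?_⟩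
    filter_upwards [hF1, h3, h3'] with p hp1 hp2 hp3 q hq
    obtain ⟨hHn, hQQ, hint⟩ := hp1
    have hint' : Integrable fun v : ℝ => ‖Y23.TT (F p) (v * Complex.I) -
        X (v * Complex.I) * Y23.TT (χ q0) (v * Complex.I)‖ ^ 2 := by
      rw [hXe]
      exact hint
    have hs1 : |1 / (1 + W)| ≤ 1 := by
      rw [abs_of_nonneg (by positivity), div_le_one (by positivity)]
      linarith
    have hs2 : ‖((1 / (1 + W) : ℝ) : ℂ)‖ ^ 2 = (1 / (1 + W)) ^ 2 := by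
      rw [Complex.norm_real, Real.norm_eq_abs, sq_abs]
    refine ⟨fun x => ((1 / (1 + W) : ℝ) : ℂ) * F p x, hHn.smul _, ?_, ?_, ?_⟩
    · rw [Y23.N2_smul, hs2]
      have h4 := n2_le (W := W) (w := wX X (χ q0)) hHn.1 (fun v => rfl) (wX_int hX (hχ q0)) le_rfl
        hint' hp3.le
      calc (1 / (1 + W)) ^ 2 * Y23.N2 (F p) ≤ (1 / (1 + W)) ^ 2 * (1 + W) :=
            mul_le_mul_of_nonneg_left h4 (by positivity)
        _ = 1 / (1 + W) := by field_simp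
        _ ≤ 1 := by
            rw [div_le_one (by positivity)]
            linarith
    · rw [qq_smul, hs2, abs_mul, abs_of_nonneg (by positivity : 0 ≤ (1 / (1 + W)) ^ 2)]
      refine le_trans (mul_le_of_le_one_left (abs_nonneg _) ?_) hQQ
      rw [← sq_abs]
      exact pow_le_one₀ (abs_nonneg _) hs1
    · rw [int_smul]
      have hcl := close (w := wX X (χ q0)) (T := T q) (B := B) (s := s)
        (f := fun v : ℝ => Y23.TT (F p) (v * Complex.I))
        (g := fun v : ℝ => X (v * Complex.I) * Y23.TT (χ q0) (v * Complex.I)) hs (hTq q) (hB q)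
        (TT_cont hHn.1) ((X_cont hX).mul (TT_cont (fa_sm (hχ q0)))) (fun v => rfl)
        (wX_int hX (hχ q0)) hint'
      have h4 := (abs_le.1 hcl).1
      have h5 : B * ((1 + 1 / s) * ∫ v : ℝ, ‖Y23.TT (F p) (v * Complex.I) -
          X (v * Complex.I) * Y23.TT (χ q0) (v * Complex.I)‖ ^ 2) ≤ d q0 / 8 := by
        rw [lt_div_iff₀ (by positivity)] at hp2
        have : B * ((1 + 1 / s) * ∫ v : ℝ, ‖Y23.TT (F p) (v * Complex.I) -
          X (v * Complex.I) * Y23.TT (χ q0) (v * Complex.I)‖ ^ 2) =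
          (∫ v : ℝ, ‖Y23.TT (F p) (v * Complex.I) -
          X (v * Complex.I) * Y23.TT (χ q0) (v * Complex.I)‖ ^ 2) * (8 * B * (1 + 1 / s)) / 8 := by
          ring
        rw [this]
        linarith
      have h8 : d q0 / 4 ≤ ∫ v : ℝ, ‖Y23.TT (F p) (v * Complex.I)‖ ^ 2 * T q v := by
        rw [mul_add] at h4
        linarith
      exact mul_le_mul_of_nonneg_left h8 (by positivity)
  choose s hs0 hs using h2
  obtain ⟨c0, hc0, hc0t⟩ : ∃ c0 : ℝ, 0 < c0 ∧ ∀ q0 ∈ t, c0 ≤ s q0 := by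
    classical
    have : ∀ t : Finset Q, ∃ c0 : ℝ, 0 < c0 ∧ ∀ q0 ∈ t, c0 ≤ s q0 := by
      intro t
      induction t using Finset.induction with
      | empty => exact ⟨1, one_pos, fun q0 h => absurd h (Finset.notMem_empty _)⟩
      | insert a t _ ih =>
        obtain ⟨c1, hc1, hc2⟩ := ih
        refine ⟨min c1 (s a), lt_min hc1 (hs0 a), fun q0 hq => ?_⟩
        rcases Finset.mem_insert.1 hq with h | h
        · rw [h]
          exact min_le_right _ _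
        · exact (min_le_left _ _).trans (hc2 q0 h)
    exact this t
  refine ⟨c0, hc0, ?_⟩
  have h3 := (Filter.eventually_all_finset t).2 fun q0 _ => hs q0
  filter_upwards [h3] with p hp q
  have hq : q ∈ ⋃ x ∈ t, {q : Q | d x / 2 < ∫ v : ℝ, wX X (χ x) v * T q v} := by
    rw [ht]
    trivial
  obtain ⟨q0, hq0, hqq⟩ := Set.mem_iUnion₂.1 hq
  obtain ⟨f, hf1, hf2, hf3, hf4⟩ := hp q0 hq0 q hqq
  exact ⟨f, hf1, hf2, hf3, (hc0t q0 hq0).trans hf4⟩

end Pool.Agent.Q26.PG.Key
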